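import Pool.Agent.Helper61.QE.St3

/-!
# Project QD, part E, module PUX: an invariant partition function
-/

set_option autoImplicit false

open MeasureTheory Set Filter Topology Complex
open scoped ContDiff ComplexConjugate ENNReal

namespace Pool.Agent.Helper80.QE

open Pool.Agent.Helper61.QE Pool.Agent.Helper68.QC

private lemma fin_set (hSUB : StSUB) {Γ : Type} [Group Γ] {s : Γ →* SL} (hs : Fu s) {R q : ℝ}
    (hR : R < 1) (hq0 : 0 ≤ q) (hq : q < 1) :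
    {γ : Γ | ∃ z : ℂ, ‖z‖ ≤ R ∧ ‖mob (s γ) z‖ ≤ q}.Finite := by
  obtain ⟨-, -, -, h4, h5, -, -, h8, -, -⟩ := hSUB
  have hq2 : 0 < 1 - q ^ 2 := by nlinarith
  have hR2 : 0 < (1 - R) ^ 2 := by
    have : 0 < 1 - R := by linarith
    positivity
  set c : ℝ := (1 - q ^ 2) * (1 - R) ^ 2 with hc
  have hc0 : 0 < c := mul_pos hq2 hR2
  have hsq : Real.sqrt (1 - c) < 1 := by
    rw [Real.sqrt_lt' one_pos]
    linarith
  refine (hs.disc (Real.sqrt (1 - c)) hsq).subset ?_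
  rintro γ ⟨z, hz, hm⟩
  have hSU := hs.su γ
  have hz1 : ‖z‖ ≤ 1 := hz.trans hR.le
  have hd := h4 _ hSU z hz1
  have e1 := h5 _ hSU z hd
  have hd0 := h4 _ hSU 0 (by simp)
  have e2 := h5 _ hSU 0 hd0
  have e3 := h8 _ hSU
  have hden0 : ‖den (s γ) 0‖ = ‖s γ 0 0‖ := by
    have : den (s γ) 0 = conj (s γ 0 0) := by
      unfold den
      rw [hSU.1]
      simp
    rw [this, RCLike.norm_conj]
  rw [hden0] at e2
  have hle : ‖s γ 1 0‖ ≤ ‖s γ 0 0‖ := by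
    refine le_of_sq_le_sq (by linarith) (norm_nonneg _)
  have ha : 0 < ‖s γ 0 0‖ := by
    by_contra h
    have h0 : ‖s γ 0 0‖ = 0 := le_antisymm (not_lt.1 h) (norm_nonneg _)
    rw [h0] at e3
    have := sq_nonneg ‖s γ 1 0‖
    norm_num at e3
    linarith
  have hdz : ‖s γ 0 0‖ * (1 - R) ≤ ‖den (s γ) z‖ := by
    have h1 : ‖s γ 1 1‖ = ‖s γ 0 0‖ := by
      rw [hSU.1, RCLike.norm_conj]
    have h2 : ‖s γ 1 1‖ - ‖s γ 1 0 * z‖ ≤ ‖den (s γ) z‖ := by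
      unfold den
      have := norm_sub_norm_le (s γ 1 1) (-(s γ 1 0 * z))
      rw [norm_neg, sub_neg_eq_add, add_comm] at this
      exact this
    have h3 : ‖s γ 1 0 * z‖ ≤ ‖s γ 0 0‖ * R := by
      rw [norm_mul]
      have hR0 : 0 ≤ R := (norm_nonneg z).trans hz
      exact mul_le_mul hle hz (norm_nonneg _) (norm_nonneg _)
    rw [h1] at h2
    linarith
  have hR1 : 0 ≤ 1 - R := by linarith
  have k1 : (‖s γ 0 0‖ * (1 - R)) ^ 2 ≤ ‖den (s γ) z‖ ^ 2 :=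
    pow_le_pow_left₀ (mul_nonneg ha.le hR1) hdz 2
  have k2 : ‖mob (s γ) z‖ ^ 2 ≤ q ^ 2 := pow_le_pow_left₀ (norm_nonneg _) hm 2
  have k3 : (1 - q ^ 2) * (‖s γ 0 0‖ * (1 - R)) ^ 2 ≤ 1 := by
    calc (1 - q ^ 2) * (‖s γ 0 0‖ * (1 - R)) ^ 2 ≤ (1 - ‖mob (s γ) z‖ ^ 2) * ‖den (s γ) z‖ ^ 2 :=
          mul_le_mul (by linarith) k1 (sq_nonneg _) (by linarith)
      _ = 1 - ‖z‖ ^ 2 := e1
      _ ≤ 1 := by
        have := sq_nonneg ‖z‖
        linarith
  have k4 : c * ‖s γ 0 0‖ ^ 2 ≤ 1 := by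
    rw [hc]
    calc (1 - q ^ 2) * (1 - R) ^ 2 * ‖s γ 0 0‖ ^ 2 = (1 - q ^ 2) * (‖s γ 0 0‖ * (1 - R)) ^ 2 := by ring
      _ ≤ 1 := k3
  have k5 : (1 - ‖mob (s γ) 0‖ ^ 2) * ‖s γ 0 0‖ ^ 2 = 1 := by
    rw [e2]
    simp
  have k6 : c ≤ 1 - ‖mob (s γ) 0‖ ^ 2 := by
    have : c * ‖s γ 0 0‖ ^ 2 ≤ (1 - ‖mob (s γ) 0‖ ^ 2) * ‖s γ 0 0‖ ^ 2 := by rw [k5]; exact k4
    exact le_of_mul_le_mul_right this (by positivity)
  show ‖mob (s γ) 0‖ ≤ Real.sqrt (1 - c)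
  refine Real.le_sqrt_of_sq_le ?_
  linarith

private lemma mob_smooth {A : SL} {z : ℂ} (hd : den A z ≠ 0) : ContDiffAt ℝ ∞ (mob A) z := by
  have h1 : ContDiffAt ℝ ∞ (fun z : ℂ => A 0 0 * z + A 0 1) z :=
    (contDiffAt_const.mul contDiffAt_id).add contDiffAt_const
  have h2 : ContDiffAt ℝ ∞ (fun z : ℂ => A 1 0 * z + A 1 1) z :=
    (contDiffAt_const.mul contDiffAt_id).add contDiffAt_const
  have h3 := h1.mul (h2.inv hd)
  refine h3.congr_of_eventuallyEq (Filter.Eventually.of_forall fun w => ?_)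
  show mob A w = _
  unfold mob den
  rw [div_eq_mul_inv]
  rfl

theorem pPUX (hSUB : Pool.Agent.Helper61.QE.StSUB) : Pool.Agent.Helper61.QE.StPUX := by
  intro Γ _ s hs
  obtain ⟨r', hr', hcoc'⟩ := hs.coc
  set r : ℝ := max r' 0 with hrdef
  have hr0 : 0 ≤ r := le_max_right _ _
  have hr1 : r < 1 := max_lt hr' one_pos
  have hcoc : ∀ z ∈ D, ∃ γ, ‖mob (s γ) z‖ ≤ r := by
    intro z hz
    obtain ⟨γ, hγ⟩ := hcoc' z hz
    exact ⟨γ, hγ.trans (le_max_left _ _)⟩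
  set q : ℝ := (r + 3) / 4 with hqdef
  have hq1 : q < 1 := by rw [hqdef]; linarith
  have hq0 : 0 ≤ q := by rw [hqdef]; linarith
  let f : ContDiffBump (0 : ℂ) := ⟨(r + 1) / 2, q, by linarith, by rw [hqdef]; linarith⟩
  have fin : f.rIn = (r + 1) / 2 := rfl
  have fout : f.rOut = q := rfl
  have f0 : ∀ z : ℂ, q ≤ ‖z‖ → f z = 0 := by
    intro z hz
    have : z ∉ Function.support f := by
      rw [f.support_eq, Metric.mem_ball, dist_zero_right, fout, not_lt]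
      exact hz
    simpa [Function.mem_support] using this
  have f1 : ∀ z : ℂ, ‖z‖ ≤ r → f z = 1 := by
    intro z hz
    refine f.one_of_mem_closedBall ?_
    rw [Metric.mem_closedBall, dist_zero_right, fin]
    linarith
  obtain ⟨g1, -, -, g4, g5, -, -, -, -, g10⟩ := id hSUB
  have hdn : ∀ γ : Γ, ∀ z ∈ D, den (s γ) z ≠ 0 := by
    intro γ z hz
    rw [Metric.mem_ball, dist_zero_right] at hz
    exact g4 _ (hs.su γ) z hz.le
  have hmD : ∀ γ : Γ, ∀ z ∈ D, mob (s γ) z ∈ D := by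
    intro γ z hz
    have hd := hdn γ z hz
    rw [Metric.mem_ball, dist_zero_right] at hz ⊢
    have h1 := g5 _ (hs.su γ) z hd
    have h2 : 0 < 1 - ‖z‖ ^ 2 := by nlinarith [norm_nonneg z]
    rw [← h1] at h2
    have h3 : 0 < 1 - ‖mob (s γ) z‖ ^ 2 := pos_of_mul_pos_left h2 (sq_nonneg _)
    have h4 : ‖mob (s γ) z‖ ^ 2 < 1 ^ 2 := by linarith
    exact lt_of_pow_lt_pow_left₀ 2 (by norm_num) h4
  -- the sum
  set Sg : ℂ → ℝ := fun z => ∑' γ : Γ, f (mob (s γ) z) with hSg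
  have hloc : ∀ R : ℝ, R < 1 → ∃ T : Finset Γ, ∀ z : ℂ, ‖z‖ ≤ R → ∀ γ ∉ T, f (mob (s γ) z) = 0 := by
    intro R hR
    refine ⟨(fin_set hSUB hs hR hq0 hq1).toFinset, ?_⟩
    intro z hz γ hγ
    by_contra h
    apply hγ
    rw [Set.Finite.mem_toFinset]
    refine ⟨z, hz, ?_⟩
    by_contra h2
    exact h (f0 _ (not_le.1 h2).le)
  have hSgD : ∀ z ∈ D, ContDiffAt ℝ ∞ Sg z := by
    intro z hz
    have hz' := hz
    rw [Metric.mem_ball, dist_zero_right] at hz'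
    obtain ⟨T, hT⟩ := hloc ((‖z‖ + 1) / 2) (by linarith)
    have h1 : ContDiffAt ℝ ∞ (fun w => ∑ γ ∈ T, f (mob (s γ) w)) z := by
      refine ContDiffAt.sum fun γ _ => ?_
      exact (f.contDiff.contDiffAt).comp z (mob_smooth (hdn γ z hz))
    refine h1.congr_of_eventuallyEq ?_
    have h2 : ∀ᶠ w in 𝓝 z, ‖w‖ < (‖z‖ + 1) / 2 :=
      continuous_norm.continuousAt.eventually_lt continuousAt_const (by linarith)
    filter_upwards [h2] with w hw
    exact tsum_eq_sum fun γ hγ => hT w hw.le γ hγ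
  have hSgs : ∀ z ∈ D, Summable (fun γ : Γ => f (mob (s γ) z)) := by
    intro z hz
    rw [Metric.mem_ball, dist_zero_right] at hz
    obtain ⟨T, hT⟩ := hloc ‖z‖ hz
    exact summable_of_ne_finset_zero fun γ hγ => hT z le_rfl γ hγ
  have hSg1 : ∀ z ∈ D, 1 ≤ Sg z := by
    intro z hz
    obtain ⟨γ, hγ⟩ := hcoc z hz
    calc (1 : ℝ) = f (mob (s γ) z) := (f1 _ hγ).symm
      _ ≤ Sg z := (hSgs z hz).le_tsum γ fun δ _ => f.nonneg
  have hSgi : ∀ δ : Γ, ∀ z ∈ D, Sg (mob (s δ) z) = Sg z := by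
    intro δ z hz
    show ∑' γ : Γ, f (mob (s γ) (mob (s δ) z)) = ∑' γ : Γ, f (mob (s γ) z)
    rw [← (Equiv.mulRight δ).tsum_eq (fun γ : Γ => f (mob (s γ) z))]
    refine tsum_congr fun γ => ?_
    rw [Equiv.coe_mulRight, map_mul, (g1 (s γ) (s δ) z (hdn δ z hz)).2]
  refine ⟨fun z => f z * (Sg z)⁻¹, ?_, ?_, ?_, ?_, ?_⟩
  · rw [contDiff_iff_contDiffAt]
    intro z
    by_cases hz : z ∈ D
    · have h1 := hSg1 z hz
      exact (f.contDiff.contDiffAt).mul ((hSgD z hz).inv (by linarith))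
    · rw [Metric.mem_ball, dist_zero_right, not_lt] at hz
      have h2 : ∀ᶠ w in 𝓝 z, q < ‖w‖ :=
        continuousAt_const.eventually_lt continuous_norm.continuousAt (by linarith)
      refine (contDiffAt_const (c := (0 : ℝ))).congr_of_eventuallyEq ?_
      filter_upwards [h2] with w hw
      rw [f0 w hw.le, zero_mul]
  · exact f.hasCompactSupport.mul_right
  · refine (tsupport_mul_subset_left (f := f) (g := fun z => (Sg z)⁻¹)).trans ?_
    rw [f.tsupport_eq, fout]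
    exact Metric.closedBall_subset_ball hq1
  · intro z
    refine mul_nonneg f.nonneg (inv_nonneg.2 (tsum_nonneg fun γ => f.nonneg))
  · intro z hz
    have h1 : ∀ γ : Γ, f (mob (s γ) z) * (Sg (mob (s γ) z))⁻¹ = f (mob (s γ) z) * (Sg z)⁻¹ := by
      intro γ
      rw [hSgi γ z hz]
    simp only [h1]
    rw [tsum_mul_right]
    have h2 : Sg z ≠ 0 := by
      have := hSg1 z hz
      intro h
      linarith
    exact mul_inv_cancel₀ h2

end Pool.Agent.Helper80.QE
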